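import Mathlib
import Pool.Agent.H92.SM4

open Finset Real MeasureTheory Filter H92.SM
open scoped ENNReal

namespace Pool.Agent.Results.MP_b99895_an.Fails

section
variable {X Y : Type} [NormedAddCommGroup X] [NormedSpace ℝ X] [NormedAddCommGroup Y]
  [NormedSpace ℝ Y]

/-- the weak `r`-norm of a finite family -/
noncomputable def weak (r : ℝ) {n : ℕ} (x : Fin n → X) : ℝ :=
  ⨆ φ : {φ : StrongDual ℝ X // ‖φ‖ ≤ 1}, (∑ k, |φ.1 (x k)| ^ r) ^ (1 / r)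

/-- admissible constants in the `r`-summing inequality; `T ∈ Π_r` iff this set is nonempty -/
def consts (r : ℝ) (T : X →L[ℝ] Y) : Set ℝ :=
  {C | 0 ≤ C ∧ ∀ (n : ℕ) (x : Fin n → X), (∑ k, ‖T (x k)‖ ^ r) ^ (1 / r) ≤ C * weak r x}

/-- the `r`-summing norm -/
noncomputable def piNorm (r : ℝ) (T : X →L[ℝ] Y) : ℝ := sInf (consts r T)

lemma le_weak {r : ℝ} (hr : 0 < r) {n : ℕ} (x : Fin n → X) (ψ : StrongDual ℝ X) (h : ‖ψ‖ ≤ 1) :
    ∑ k, |ψ (x k)| ^ r ≤ weak r x ^ r := by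
  have : (∑ k, |ψ (x k)| ^ r) ^ (1 / r) ≤ weak r x := le_ciSup
    (f := fun φ : {φ : StrongDual ℝ X // ‖φ‖ ≤ 1} => (∑ k, |φ.1 (x k)| ^ r) ^ (1 / r))
    ⟨(∑ k, ‖x k‖ ^ r) ^ (1 / r), by
      rintro _ ⟨φ, rfl⟩
      dsimp only
      gcongr with k
      simpa using φ.1.le_of_opNorm_le φ.2 (x k)⟩ ⟨ψ, h⟩
  have := rpow_le_rpow (by positivity) this hr.le
  rwa [one_div, rpow_inv_rpow (by positivity) hr.ne'] at this

lemma weak_nonneg (r : ℝ) {n : ℕ} (x : Fin n → X) : 0 ≤ weak r x :=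
  Real.iSup_nonneg fun _ => by positivity

lemma mem_consts {r A : ℝ} (hr : 0 < r) (hA : 0 ≤ A) (T : X →L[ℝ] Y) (h : ∀ (n : ℕ) (x : Fin n → X)
    (w : ℝ), (∀ ψ : StrongDual ℝ X, ‖ψ‖ ≤ 1 → ∑ k, |ψ (x k)| ^ r ≤ w) →
      ∑ k, ‖T (x k)‖ ^ r ≤ A * w) : A ^ (1 / r) ∈ consts r T :=
  ⟨by positivity, fun n x => by
    have := rpow_le_rpow (by positivity) (h n x _ (le_weak hr x)) (one_div_pos.2 hr).le
    rwa [mul_rpow hA (rpow_nonneg (weak_nonneg r x) r), one_div r,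
      rpow_rpow_inv (weak_nonneg r x) hr.ne', ← one_div r] at this⟩

lemma le_pi {r w : ℝ} (hr : 0 < r) (hw : 0 < w) (T : X →L[ℝ] Y) (hT : (consts r T).Nonempty)
    {κ : Type} [Fintype κ] (x : κ → X)
    (h : ∀ ψ : StrongDual ℝ X, ‖ψ‖ ≤ 1 → ∑ k, |ψ (x k)| ^ r ≤ w) :
    ∑ k, ‖T (x k)‖ ^ r ≤ piNorm r T ^ r * w := by
  let e := (Fintype.equivFin κ).symm
  have : (∑ k, ‖T (x k)‖ ^ r) ^ (1 / r) / w ^ (1 / r) ≤ piNorm r T := le_csInf hT fun c hc => by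
    rw [div_le_iff₀ (by positivity), ← Equiv.sum_comp e]
    refine (hc.2 _ (x ∘ e)).trans (mul_le_mul_of_nonneg_left (Real.iSup_le (fun φ => ?_)
      (by positivity)) hc.1)
    have := h φ.1 φ.2
    rw [← Equiv.sum_comp e] at this
    exact rpow_le_rpow (by positivity) this (by positivity)
  have := rpow_le_rpow (by positivity) this hr.le
  rwa [← div_rpow (by positivity) hw.le, one_div, rpow_inv_rpow (by positivity) hr.ne',
    div_le_iff₀ hw] at this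

variable [LE X] [LE Y]

/-- positive operators -/
def Pos (T : X →L[ℝ] Y) : Prop := ∀ f, 0 ≤ f → 0 ≤ T f

/-- the order of operators: `T - U` is positive -/
def Le (U T : X →L[ℝ] Y) : Prop := Pos (T - U)

/-- `W` dominates `U` and `-U` -/
def Dom (U W : X →L[ℝ] Y) : Prop := Le U W ∧ Le (-U) W

/-- `W = |U| = U ∨ (-U)` -/
def IsModulus (U W : X →L[ℝ] Y) : Prop := Dom U W ∧ ∀ W', Dom U W' → Le W W'

variable (X Y) in
/-- `Π_r(X, Y)` is closed under moduli and `π_r` is monotone up to a constant -/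
def SLat (r : ℝ) : Prop :=
  (∀ U : X →L[ℝ] Y, (consts r U).Nonempty → ∃ W, IsModulus U W ∧ (consts r W).Nonempty) ∧
  ∃ C : ℝ, ∀ U V U' V' : X →L[ℝ] Y, (consts r U).Nonempty → (consts r V).Nonempty →
    IsModulus U U' → IsModulus V V' → Le V' U' → piNorm r V ≤ C * piNorm r U

end

/-- real `L^p[0,1]` -/
noncomputable abbrev L (p : ℝ≥0∞) := Lp ℝ p (volume.restrict (Set.Icc (0 : ℝ) 1))

variable (r : ℝ) (p q : ℝ≥0∞) [Fact (1 ≤ p)] [Fact (1 ≤ q)]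

/-- the statement `S(p,q)` -/
def S : Prop := SLat (L p) (L q) r

lemma fail {r δ η : ℝ} (δ0 : 0 < δ) (η1 : η ≤ 1) (hη : η ≤ (r / 2 - 1) / 2)
    (hδ : δ = η * (1 - 1 / (r / 2)) / 16) (hr : 2 < r) (hp : p ≠ ∞) (hq : q ≠ ∞)
    (hp' : r * (1 - 1 / p.toReal) = r / 2 - δ) (hqr : q.toReal ≤ r)
    (hq' : r / q.toReal ≤ 1 + δ / 4) : ¬ S r p q := by
  classical
  rintro ⟨h1, C, h2⟩
  have r0 : 0 < r := by linarith
  have θ0 : 0 < 1 - 1 / (r / 2) := by rw [sub_pos, div_lt_one] <;> linarith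
  have θ1 : 1 - 1 / (r / 2) ≤ 1 := sub_le_self _ (by positivity)
  have η0 : 0 < η := by by_contra h; nlinarith
  have δ1 : δ ≤ η := by nlinarith
  obtain ⟨K, K0, hK⟩ := khin_up r0
  obtain ⟨N, hN⟩ := eventually_atTop.1 (tendsto_natCast_atTop_atTop.eventually
    (((tendsto_rpow_atTop (by positivity : 0 < η / 8)).eventually_ge_atTop 2).and
    ((tendsto_rpow_atTop (half_pos δ0)).eventually_gt_atTop
      (|C| ^ r * (K * 3 ^ (r / 2) * 15) * (2 * 3 ^ r)))))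
  obtain ⟨d, hd, hd'⟩ := Nat.exists_infinite_primes N
  obtain ⟨n1, n2⟩ := hN d hd
  have := Fact.mk hd'
  have d1 : (1 : ℝ) ≤ d := by exact_mod_cast hd'.one_le
  have d0 : (0 : ℝ) < d := by linarith
  have e1 : (1 : ℝ) ≤ d ^ η := one_le_rpow d1 η0.le
  have e2 := Nat.floor_le (zero_le_one.trans e1)
  have e3 := Nat.lt_floor_add_one ((d : ℝ) ^ η)
  have e4 := (Nat.one_le_floor_iff _).2 e1
  set D := ⌊(d : ℝ) ^ η⌋₊
  have e5 : (D : ℝ) ≤ d := e2.trans (by simpa using rpow_le_rpow_of_exponent_le d1 η1)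
  have D1 : (1 : ℝ) ≤ D := by exact_mod_cast e4
  obtain ⟨P, Cc, _, _, _, Ln, H⟩ := exists_des d D e4 (by exact_mod_cast e5)
  obtain ⟨I, hI⟩ := exists_pt P
  obtain ⟨J, hJ⟩ := exists_pt (Cc × (P → Bool))
  have t0 := rpow_pos_of_pos d0 (η / 8)
  have hU := mem_consts r0 (by positivity) (UU hJ p q Ln I) fun n x w hw =>
    upper H hI hJ p q (v := 2 / d ^ (η / 8)) hr hq hqr (by positivity) ((div_le_one t0).2 n1) (by
      rw [div_pow, ← rpow_natCast (d ^ (η / 8) : ℝ), ← rpow_mul d0.le, div_mul_eq_mul_div,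
        one_le_div (by positivity), show η / 8 * (8 : ℕ) = η by push_cast; ring]
      linarith) K0 (hK P) x hw
  obtain ⟨W, hW, hW'⟩ := h1 _ ⟨_, hU⟩
  obtain ⟨W', hW2, -⟩ := h1 _ hW'
  have a1 := h2 _ W W W' ⟨_, hU⟩ hW' hW hW2 (hW2.2 W ⟨fun f _ => by simp, fun f hf => by
    simpa using add_nonneg (hW.1.1 f hf) (hW.1.2 f hf)⟩)
  have a2 := csInf_le ⟨0, fun c hc => hc.1⟩ hU
  have a3 : 0 ≤ piNorm r (UU hJ p q Ln I) := le_csInf ⟨_, hU⟩ fun c hc => hc.1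
  have s0 : 0 < r / 2 - δ := by linarith
  have rs : r / (r / (r / 2 - δ)) = r / 2 - δ := by field_simp
  obtain ⟨f, f1, f2⟩ := lower H hI hJ p q (s := r / (r / 2 - δ))
    (by rw [le_div_iff₀ s0]; linarith) (div_le_self r0.le (by linarith)) hp hq
    (by rw [inv_div, ← hp']; field_simp; ring)
    (by rw [rs]
        calc (d : ℝ) * D ≤ d * d ^ η := by gcongr
          _ = d ^ (1 + η) := by rw [rpow_add d0, rpow_one]
          _ ≤ _ := rpow_le_rpow_of_exponent_le d1 (by linarith)) W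
    fun f hf => ⟨by simpa using hW.1.1 f hf, by simpa [neg_le_iff_add_nonneg] using hW.1.2 f hf⟩
  have a4 := f2.trans (le_pi r0 (by positivity) W hW' f f1)
  rw [rs] at a4
  rw [hp'] at a2
  have a5 : (d : ℝ) ^ (-(r / 2)) + 7 * (2 / d ^ (η / 8)) ^ (1 - 1 / (r / 2)) *
      d ^ (r / 2 - 2 * (r / 2 - δ)) ≤ 15 * d ^ (-(r / 2)) := by
    have b1 : (2 : ℝ) ^ (1 - 1 / (r / 2)) ≤ 2 := by
      simpa using rpow_le_rpow_of_exponent_le one_le_two θ1
    rw [div_rpow zero_le_two t0.le, ← rpow_mul d0.le, mul_assoc, div_mul_eq_mul_div, mul_div_assoc,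
      ← rpow_sub d0, show r / 2 - 2 * (r / 2 - δ) - η / 8 * (1 - 1 / (r / 2)) = -(r / 2) by
        rw [hδ]; ring]
    nlinarith [rpow_pos_of_pos d0 (-(r / 2))]
  have a6 : piNorm r W ^ r ≤ |C| ^ r * (K * 3 ^ (r / 2) * (15 * d ^ (-(r / 2)))) := by
    have b0 : 0 ≤ piNorm r W := le_csInf hW' fun c hc => hc.1
    have b1 := rpow_le_rpow b0 (a1.trans (mul_le_mul (le_abs_self C) a2 a3 (abs_nonneg C))) r0.le
    rw [mul_rpow (abs_nonneg C) (by positivity), one_div r, rpow_inv_rpow (by positivity) r0.ne']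
      at b1
    exact b1.trans (by gcongr)
  have a7 : (d : ℝ) ^ (-(δ / 2)) ≤ (d * D) ^ (1 - r / q.toReal) := by
    have b1 : (1 : ℝ) ≤ d * D := by nlinarith
    refine le_trans ?_ (rpow_le_rpow_of_exponent_le b1 (show -(δ / 4) ≤ _ by linarith))
    refine le_trans (le_of_eq ?_) (rpow_le_rpow_of_nonpos (by positivity)
      (mul_le_mul_of_nonneg_left e5 d0.le) (by linarith))
    rw [mul_rpow d0.le d0.le, ← rpow_add d0]; congr 1; ring
  have a8 := (mul_le_mul_of_nonneg_left a7 (rpow_pos_of_pos d0 (-r)).le).trans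
    (a4.trans (mul_le_mul_of_nonneg_right a6 (by positivity)))
  have e : (d : ℝ) ^ (-r) * d ^ (-(δ / 2)) = d ^ (δ / 2) * (d ^ (-(r / 2)) * d ^ (r / 2 - δ - r)) := by
    simp only [← rpow_add d0]; congr 1; ring
  have := mul_lt_mul_of_pos_right n2 (mul_pos (rpow_pos_of_pos d0 (-(r / 2)))
    (rpow_pos_of_pos d0 (r / 2 - δ - r)))
  linarith

theorem joined (r : ℝ) (hr : 2 < r) :
    (∃ (p q : ℝ≥0∞) (_ : Fact (1 ≤ p)) (_ : Fact (1 ≤ q)), r / (r - 1) < p.toReal ∧ p.toReal < 2 ∧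
      2 < q.toReal ∧ q.toReal < r ∧ ¬ S r p q) ∧
    ∃ (p q : ℝ≥0∞) (_ : Fact (1 ≤ p)) (_ : Fact (1 ≤ q)), 1 ≤ p.toReal ∧ p.toReal ≤ 2 ∧
      q.toReal = r ∧ ¬ S r p q := by
  set η := min 1 ((r / 2 - 1) / 2)
  have η0 : 0 < η := lt_min one_pos (by linarith)
  have η2 : η ≤ (r / 2 - 1) / 2 := min_le_right _ _
  have θ0 : 0 < 1 - 1 / (r / 2) := by rw [sub_pos, div_lt_one] <;> linarith
  have θ1 : 1 - 1 / (r / 2) ≤ 1 := sub_le_self _ (by positivity)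
  obtain ⟨δ, hδ⟩ : ∃ δ, δ = η * (1 - 1 / (r / 2)) / 16 := ⟨_, rfl⟩
  have δ0 : 0 < δ := by rw [hδ]; positivity
  have δ1 : δ ≤ η := by nlinarith
  have F {x : ℝ} (h : 1 ≤ x) : Fact (1 ≤ ENNReal.ofReal x) := ⟨ENNReal.one_le_ofReal.2 h⟩
  have p1 : r / (r - 1) < r / (r / 2 + δ) := by gcongr; linarith
  have p2 : r / (r / 2 + δ) < 2 := by rw [div_lt_iff₀ (by positivity)]; linarith
  have p3 : 1 ≤ r / (r / 2 + δ) := by rw [le_div_iff₀ (by positivity)]; linarith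
  have q1 : 2 < r / (1 + δ / 4) := by rw [lt_div_iff₀ (by positivity)]; linarith
  have q2 : r / (1 + δ / 4) < r := div_lt_self (by linarith) (by linarith)
  have e1 := ENNReal.toReal_ofReal (zero_le_one.trans p3)
  have e2 := ENNReal.toReal_ofReal (zero_le_two.trans q1.le)
  have e3 := ENNReal.toReal_ofReal (zero_le_two.trans hr.le)
  have k (q : ℝ≥0∞) [Fact (1 ≤ q)] := @fail _ q (F p3) _ r δ η δ0 (min_le_left _ _) η2 hδ hr
    ENNReal.ofReal_ne_top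
  have e4 : r * (1 - 1 / (ENNReal.ofReal (r / (r / 2 + δ))).toReal) = r / 2 - δ := by
    rw [e1]; field_simp; ring
  refine ⟨⟨_, _, F p3, F (one_le_two.trans q1.le), by rwa [e1], by rwa [e1], by rwa [e2],
    by rwa [e2], @k _ (F (one_le_two.trans q1.le)) ENNReal.ofReal_ne_top e4 (by rw [e2]; exact q2.le)
      (by rw [e2]; exact le_of_eq (by field_simp))⟩, _, _, F p3, F (one_le_two.trans hr.le),
    by rwa [e1], by rw [e1]; exact p2.le, e3, @k _ (F (one_le_two.trans hr.le)) ENNReal.ofReal_ne_top e4 e3.le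
      (by rw [e3, div_self (by linarith)]; linarith)⟩

theorem result (r : ℝ) (hr : 2 < r) :
    ∃ (p q : ℝ≥0∞) (_ : Fact (1 ≤ p)) (_ : Fact (1 ≤ q)), r / (r - 1) < p.toReal ∧ p.toReal < 2 ∧
      2 < q.toReal ∧ q.toReal < r ∧ ¬ S r p q := (joined r hr).1

end Pool.Agent.Results.MP_b99895_an.Fails
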