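import Pool.Agent.Results.MP_b99895_an.Fails

open scoped ENNReal

namespace Pool.Agent.Results.MP_b99895_an.FailsEnd
open Pool.Agent.Results.MP_b99895_an.Fails

theorem result (r : ℝ) (hr : 2 < r) :
    ∃ (p q : ℝ≥0∞) (_ : Fact (1 ≤ p)) (_ : Fact (1 ≤ q)), 1 ≤ p.toReal ∧ p.toReal ≤ 2 ∧
      q.toReal = r ∧ ¬ S r p q := (joined r hr).2

end Pool.Agent.Results.MP_b99895_an.FailsEnd
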